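import Mathlib
import Pool.Agent.G9.Stmts

set_option autoImplicit false

namespace Pool.Agent.G9.H49

open Finset

/-- Ordered sums over adjacent pairs are twice the sums over edges. -/
theorem sum_ordered {V : Type} [Fintype V] [DecidableEq V] (G : SimpleGraph V)
    [DecidableRel G.Adj] [DecidablePred (fun e => e ∈ G.edgeSet)] (f : Sym2 V → ℝ) :
    ∑ u, ∑ v, (if G.Adj u v then f s(u, v) else 0) =
      2 * ∑ e, (if e ∈ G.edgeSet then f e else 0) := by
  rw [← Fintype.sum_prod_type' (f := fun u v => if G.Adj u v then f s(u, v) else 0)]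
  rw [← Finset.sum_fiberwise (s := univ) (g := fun q : V × V => s(q.1, q.2))]
  rw [Finset.mul_sum]
  refine Finset.sum_congr rfl fun e _ => ?_
  induction e using Sym2.ind with
  | _ a b =>
    by_cases h : G.Adj a b
    · have h1 : (univ.filter fun q : V × V => s(q.1, q.2) = s(a, b)) = {(a, b), (b, a)} := by
        ext ⟨u, v⟩
        simp
      have h3 : (a, b) ≠ (b, a) := by
        intro h2
        exact h.ne (congrArg Prod.fst h2)
      rw [h1, Finset.sum_pair h3]
      have h4 : s(b, a) = s(a, b) := Sym2.eq_swap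
      simp only [h, h.symm, h4, if_true, SimpleGraph.mem_edgeSet]
      ring
    · have h1 : ∀ q ∈ (univ.filter fun q : V × V => s(q.1, q.2) = s(a, b)),
          (if G.Adj q.1 q.2 then f s(q.1, q.2) else 0) = 0 := by
        intro q hq
        have h2 : s(q.1, q.2) = s(a, b) := (Finset.mem_filter.1 hq).2
        have h3 : ¬ G.Adj q.1 q.2 := by
          intro h4
          apply h
          rw [← SimpleGraph.mem_edgeSet, ← h2, SimpleGraph.mem_edgeSet]
          exact h4
        rw [if_neg h3]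
      rw [Finset.sum_eq_zero h1]
      simp only [h, if_false, SimpleGraph.mem_edgeSet]
      ring

section prob

variable {E : Type} [Fintype E] [DecidableEq E]

/-- Weights of the random subset with density `p`. -/
noncomputable def Pw (p : ℝ) (A : Finset E) : ℝ :=
  (∏ _e ∈ A, p) * ∏ _e ∈ univ \ A, (1 - p)

theorem Pw_nonneg {p : ℝ} (h0 : 0 ≤ p) (h1 : p ≤ 1) (A : Finset E) : 0 ≤ Pw p A := by
  unfold Pw
  refine mul_nonneg (Finset.prod_nonneg fun _ _ => h0) (Finset.prod_nonneg fun _ _ => ?_)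
  linarith

theorem avg_prod (p : ℝ) (a b : E → ℝ) :
    ∑ A : Finset E, Pw p A * ((∏ e ∈ A, a e) * ∏ e ∈ univ \ A, b e) =
      ∏ e, (p * a e + (1 - p) * b e) := by
  rw [Finset.prod_add, Finset.powerset_univ]
  refine Finset.sum_congr rfl fun A _ => ?_
  rw [Finset.prod_mul_distrib, Finset.prod_mul_distrib]
  unfold Pw
  ring

theorem sum_Pw (p : ℝ) : ∑ A : Finset E, Pw p A = 1 := by
  have h := avg_prod (E := E) p (fun _ => 1) (fun _ => 1)
  simpa using h

theorem avg_subset (p : ℝ) (t : Finset E) :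
    ∑ A : Finset E, Pw p A * (if t ⊆ A then 1 else 0) = p ^ t.card := by
  have h := avg_prod (E := E) p (fun _ => 1) (fun e => if e ∈ t then 0 else 1)
  have h1 : ∀ A : Finset E, ((∏ e ∈ A, (1 : ℝ)) * ∏ e ∈ univ \ A, (if e ∈ t then (0 : ℝ) else 1)) =
      if t ⊆ A then 1 else 0 := by
    intro A
    rw [Finset.prod_const_one, one_mul]
    by_cases hA : t ⊆ A
    · rw [if_pos hA]
      refine Finset.prod_eq_one fun e he => ?_
      rw [if_neg]
      intro h2
      exact (Finset.mem_sdiff.1 he).2 (hA h2)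
    · rw [if_neg hA]
      obtain ⟨e, h2, h3⟩ := Finset.not_subset.1 hA
      refine Finset.prod_eq_zero (i := e) ?_ ?_
      · simp [h3]
      · simp [h2]
  have h2 : ∏ e : E, (p * 1 + (1 - p) * (if e ∈ t then (0 : ℝ) else 1)) = p ^ t.card := by
    have h3 : ∀ e : E, (p * 1 + (1 - p) * (if e ∈ t then (0 : ℝ) else 1)) =
        if e ∈ t then p else 1 := by
      intro e
      split_ifs <;> ring
    simp only [h3]
    rw [Finset.prod_ite_mem, Finset.univ_inter, Finset.prod_const]
  rw [← h2, ← h]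
  refine Finset.sum_congr rfl fun A _ => ?_
  rw [h1 A]

theorem factor_le {p l y : ℝ} (h0 : 0 ≤ p) (h1 : p ≤ 1) (hl0 : 0 ≤ l) (hl1 : l ≤ 1)
    (hy : |y| ≤ 1) :
    p * Real.exp (-(l * ((1 - p) * y))) + (1 - p) * Real.exp (-(l * ((0 - p) * y))) ≤
      Real.exp (l ^ 2 * p * y ^ 2) := by
  have hy' := abs_le.1 hy
  have key : ∀ s : ℝ, |s| ≤ 1 → Real.exp s ≤ 1 + s + s ^ 2 := by
    intro s hs
    have h := abs_le.1 (Real.abs_exp_sub_one_sub_id_le hs)
    linarith [h.2]
  have e1 : |-(l * ((1 - p) * y))| ≤ 1 := by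
    rw [abs_neg, abs_mul, abs_mul, abs_of_nonneg hl0, abs_of_nonneg (by linarith : (0 : ℝ) ≤ 1 - p)]
    have h2 : (1 - p) * |y| ≤ 1 * 1 :=
      mul_le_mul (by linarith) hy (abs_nonneg y) (by norm_num)
    have h3 : 0 ≤ (1 - p) * |y| := mul_nonneg (by linarith) (abs_nonneg y)
    calc l * ((1 - p) * |y|) ≤ 1 * (1 * 1) := mul_le_mul hl1 h2 h3 (by norm_num)
      _ = 1 := by norm_num
  have e2 : |-(l * ((0 - p) * y))| ≤ 1 := by
    rw [abs_neg, abs_mul, abs_mul, abs_of_nonneg hl0, zero_sub, abs_neg, abs_of_nonneg h0]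
    have h2 : p * |y| ≤ 1 * 1 := mul_le_mul h1 hy (abs_nonneg y) (by norm_num)
    have h3 : 0 ≤ p * |y| := mul_nonneg h0 (abs_nonneg y)
    calc l * (p * |y|) ≤ 1 * (1 * 1) := mul_le_mul hl1 h2 h3 (by norm_num)
      _ = 1 := by norm_num
  have b1 := mul_le_mul_of_nonneg_left (key _ e1) h0
  have b2 := mul_le_mul_of_nonneg_left (key _ e2) (by linarith : (0 : ℝ) ≤ 1 - p)
  have b3 : p * (1 + -(l * ((1 - p) * y)) + (-(l * ((1 - p) * y))) ^ 2) +
      (1 - p) * (1 + -(l * ((0 - p) * y)) + (-(l * ((0 - p) * y))) ^ 2) =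
      1 + l ^ 2 * y ^ 2 * p * (1 - p) := by
    ring
  have b4 : l ^ 2 * y ^ 2 * p * (1 - p) ≤ l ^ 2 * p * y ^ 2 := by
    have h5 : 0 ≤ l ^ 2 * y ^ 2 * p := by positivity
    nlinarith
  have b5 := Real.add_one_le_exp (l ^ 2 * p * y ^ 2)
  linarith

theorem avg_exp {p l : ℝ} (h0 : 0 ≤ p) (h1 : p ≤ 1) (hl0 : 0 ≤ l) (hl1 : l ≤ 1) (y : E → ℝ)
    (hy : ∀ e, |y e| ≤ 1) :
    ∑ A : Finset E, Pw p A * Real.exp (-(l * ∑ e, ((if e ∈ A then 1 else 0) - p) * y e)) ≤
      Real.exp (l ^ 2 * p * ∑ e, y e ^ 2) := by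
  have h := avg_prod (E := E) p (fun e => Real.exp (-(l * ((1 - p) * y e))))
    (fun e => Real.exp (-(l * ((0 - p) * y e))))
  have h2 : ∀ A : Finset E, Real.exp (-(l * ∑ e, ((if e ∈ A then 1 else 0) - p) * y e)) =
      (∏ e ∈ A, Real.exp (-(l * ((1 - p) * y e)))) *
        ∏ e ∈ univ \ A, Real.exp (-(l * ((0 - p) * y e))) := by
    intro A
    rw [← Real.exp_sum, ← Real.exp_sum, ← Real.exp_add]
    congr 1
    have h3 : ∑ e, ((if e ∈ A then 1 else 0) - p) * y e =
        ∑ e ∈ A, (1 - p) * y e + ∑ e ∈ univ \ A, (0 - p) * y e := by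
      rw [← Finset.sum_sdiff (Finset.subset_univ A), add_comm]
      congr 1
      · refine Finset.sum_congr rfl fun e he => ?_
        rw [if_pos he]
      · refine Finset.sum_congr rfl fun e he => ?_
        rw [if_neg (Finset.mem_sdiff.1 he).2]
    rw [h3, mul_add, neg_add, Finset.mul_sum, Finset.mul_sum, ← Finset.sum_neg_distrib,
      ← Finset.sum_neg_distrib]
  simp only [h2]
  rw [h, Finset.mul_sum, Real.exp_sum]
  refine Finset.prod_le_prod (fun e _ => ?_) fun e _ => factor_le h0 h1 hl0 hl1 (hy e)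
  have h3 : (0 : ℝ) ≤ 1 - p := by linarith
  positivity

end prob

theorem markov {ι : Type} [Fintype ι] (P f : ι → ℝ) (hP : ∀ i, 0 ≤ P i) (hf : ∀ i, 0 ≤ f i)
    (a : ℝ) (ha : ∑ i, P i * f i ≤ a) [DecidablePred (fun i => 3 * a < f i)] :
    ∑ i ∈ univ.filter (fun i => 3 * a < f i), P i < 1 / 3 := by
  set S := univ.filter (fun i => 3 * a < f i) with hS
  have ha0 : 0 ≤ a := le_trans (Finset.sum_nonneg fun i _ => mul_nonneg (hP i) (hf i)) ha
  have hle : ∑ i ∈ S, P i * f i ≤ a :=
    le_trans (Finset.sum_le_sum_of_subset_of_nonneg (Finset.subset_univ _)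
      fun i _ _ => mul_nonneg (hP i) (hf i)) ha
  by_cases h0 : ∀ i ∈ S, P i = 0
  · rw [Finset.sum_eq_zero h0]
    norm_num
  · push Not at h0
    obtain ⟨j, hj, hPj⟩ := h0
    have hPj' : 0 < P j := lt_of_le_of_ne (hP j) (Ne.symm hPj)
    have hlt : ∑ i ∈ S, P i * (3 * a) < ∑ i ∈ S, P i * f i := by
      refine Finset.sum_lt_sum (fun i hi => ?_) ⟨j, hj, ?_⟩
      · exact mul_le_mul_of_nonneg_left (Finset.mem_filter.1 hi).2.le (hP i)
      · exact mul_lt_mul_of_pos_left (Finset.mem_filter.1 hj).2 hPj'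
    rw [← Finset.sum_mul] at hlt
    have h5 : (∑ i ∈ S, P i) * (3 * a) < a := lt_of_lt_of_le hlt hle
    rcases ha0.eq_or_lt with h6 | h6
    · rw [← h6] at h5
      simp at h5
    · by_contra h7
      push Not at h7
      have h8 : 1 / 3 * (3 * a) ≤ (∑ i ∈ S, P i) * (3 * a) :=
        mul_le_mul_of_nonneg_right h7 (by linarith)
      linarith

theorem three {ι : Type} [Fintype ι] (P f g h : ι → ℝ) (hP : ∀ i, 0 ≤ P i) (hs : ∑ i, P i = 1)
    (hf : ∀ i, 0 ≤ f i) (hg : ∀ i, 0 ≤ g i) (hh : ∀ i, 0 ≤ h i) (a b c : ℝ)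
    (ha : ∑ i, P i * f i ≤ a) (hb : ∑ i, P i * g i ≤ b) (hc : ∑ i, P i * h i ≤ c) :
    ∃ i, f i ≤ 3 * a ∧ g i ≤ 3 * b ∧ h i ≤ 3 * c := by
  classical
  by_contra hcon
  push Not at hcon
  have m1 := markov P f hP hf a ha
  have m2 := markov P g hP hg b hb
  have m3 := markov P h hP hh c hc
  have hU : ∑ i, P i ≤ ∑ i, ((if 3 * a < f i then P i else 0) + (if 3 * b < g i then P i else 0) +
      (if 3 * c < h i then P i else 0)) := by
    refine Finset.sum_le_sum fun i _ => ?_
    have hPi := hP i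
    by_cases h1 : 3 * a < f i
    · rw [if_pos h1]
      split_ifs <;> linarith
    · by_cases h2 : 3 * b < g i
      · rw [if_neg h1, if_pos h2]
        split_ifs <;> linarith
      · have h3 := hcon i (not_lt.1 h1) (not_lt.1 h2)
        rw [if_neg h1, if_neg h2, if_pos h3]
        linarith
  rw [Finset.sum_add_distrib, Finset.sum_add_distrib, ← Finset.sum_filter, ← Finset.sum_filter,
    ← Finset.sum_filter, hs] at hU
  linarith

theorem rnd : RndStmt := by
  intro V _ _ _ G _ K D hK hKD hdeg w hw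
  classical
  set n : ℝ := (Fintype.card V : ℝ) with hn
  have hn1 : 1 ≤ n := by
    rw [hn]
    exact_mod_cast Fintype.card_pos (α := V)
  have hK0 : (0 : ℝ) < K := by exact_mod_cast hK
  have hD0 : (0 : ℝ) < D := lt_of_lt_of_le hK0 hKD
  set p : ℝ := 1 / K with hp
  have hp0 : 0 ≤ p := by positivity
  have hp1 : p ≤ 1 := by
    rw [hp, div_le_one hK0]
    exact_mod_cast hK
  set l : ℝ := Real.sqrt (K / D) with hl
  have hl0 : 0 < l := Real.sqrt_pos.2 (div_pos hK0 hD0)
  have hl1 : l ≤ 1 := by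
    rw [hl]
    exact Real.sqrt_le_one.2 ((div_le_one hD0).2 hKD)
  have hl2 : l ^ 2 = K / D := Real.sq_sqrt (by positivity)
  have hlinv : Real.sqrt (D / K) = l⁻¹ := by
    rw [hl, ← Real.sqrt_inv, inv_div]
  have hsum1 : ∀ u, ∑ v, (if G.Adj u v then (1 : ℝ) else 0) ≤ D := by
    intro u
    have h1 : ∑ v, (if G.Adj u v then (1 : ℝ) else 0) = (G.degree u : ℝ) := by
      rw [Finset.sum_boole, ← SimpleGraph.card_neighborFinset_eq_degree]
      congr 2
      ext v
      simp
    rw [h1]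
    exact hdeg u
  have hsum2 : ∑ u, ∑ v, (if G.Adj u v then (1 : ℝ) else 0) ≤ n * D := by
    calc ∑ u, ∑ v, (if G.Adj u v then (1 : ℝ) else 0) ≤ ∑ _u : V, D :=
          Finset.sum_le_sum fun u _ => hsum1 u
      _ = n * D := by rw [Finset.sum_const, Finset.card_univ, nsmul_eq_mul]
  -- edge values
  let xs : Finset V → V → ℝ := fun S v => if v ∈ S then 1 else -1
  let z : Finset V → Sym2 V → ℝ := fun S e =>
    Sym2.lift ⟨fun a b => xs S a * xs S b, fun a b => mul_comm _ _⟩ e
  have hz : ∀ S a b, z S s(a, b) = xs S a * xs S b := fun S a b => rfl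
  have hxs : ∀ S v, xs S v = 1 ∨ xs S v = -1 := by
    intro S v
    by_cases h : v ∈ S
    · left
      exact if_pos h
    · right
      exact if_neg h
  have hz1 : ∀ S e, z S e = 1 ∨ z S e = -1 := by
    intro S e
    induction e using Sym2.ind with
    | _ a b =>
      rw [hz]
      rcases hxs S a with h1 | h1 <;> rcases hxs S b with h2 | h2 <;> rw [h1, h2] <;> norm_num
  let y : Finset V → Sym2 V → ℝ := fun S e => if e ∈ G.edgeSet then z S e else 0
  have hy1 : ∀ S e, |y S e| ≤ 1 := by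
    intro S e
    by_cases h : e ∈ G.edgeSet
    · have h2 : y S e = z S e := if_pos h
      rw [h2]
      rcases hz1 S e with h3 | h3 <;> rw [h3] <;> norm_num
    · have h2 : y S e = 0 := if_neg h
      rw [h2]
      norm_num
  have hy2 : ∀ S, 2 * ∑ e, y S e ^ 2 ≤ n * D := by
    intro S
    have h1 : ∑ e, y S e ^ 2 = ∑ e, (if e ∈ G.edgeSet then (1 : ℝ) else 0) := by
      refine Finset.sum_congr rfl fun e _ => ?_
      by_cases h : e ∈ G.edgeSet
      · have h2 : y S e = z S e := if_pos h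
        rw [h2, if_pos h]
        rcases hz1 S e with h3 | h3 <;> rw [h3] <;> norm_num
      · have h2 : y S e = 0 := if_neg h
        rw [h2, if_neg h]
        norm_num
    have h2 := sum_ordered G (fun _ => (1 : ℝ))
    rw [h1, ← h2]
    exact hsum2
  let Z : Finset V → Finset (Sym2 V) → ℝ := fun S A =>
    ∑ e, ((if e ∈ A then 1 else 0) - p) * y S e
  have hZ : ∀ S A, 2 * Z S A =
      ∑ u, ∑ v, (if G.Adj u v ∧ s(u, v) ∈ A then xs S u * xs S v else 0) -
        p * ∑ u, ∑ v, (if G.Adj u v then xs S u * xs S v else 0) := by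
    intro S A
    have h1 := sum_ordered G (fun e => ((if e ∈ A then (1 : ℝ) else 0) - p) * z S e)
    have h2 : Z S A = ∑ e, (if e ∈ G.edgeSet then
        ((if e ∈ A then (1 : ℝ) else 0) - p) * z S e else 0) := by
      refine Finset.sum_congr rfl fun e _ => ?_
      by_cases h : e ∈ G.edgeSet
      · have h2 : y S e = z S e := if_pos h
        rw [h2, if_pos h]
      · have h2 : y S e = 0 := if_neg h
        rw [h2, if_neg h, mul_zero]
    rw [h2, ← h1, Finset.mul_sum, ← Finset.sum_sub_distrib]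
    refine Finset.sum_congr rfl fun u _ => ?_
    rw [Finset.mul_sum, ← Finset.sum_sub_distrib]
    refine Finset.sum_congr rfl fun v _ => ?_
    rw [hz]
    by_cases h3 : G.Adj u v
    · by_cases h4 : s(u, v) ∈ A
      · simp only [h3, h4, if_true, and_self]
        ring
      · simp only [h3, h4, if_true, if_false, and_false]
        ring
    · simp only [h3, if_false, false_and]
      ring
  -- three averages
  have avY : ∑ A : Finset (Sym2 V), Pw p A * ∑ S, Real.exp (-(l * Z S A)) ≤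
      2 ^ Fintype.card V * Real.exp (n / 2) := by
    have h1 : ∑ A : Finset (Sym2 V), Pw p A * ∑ S, Real.exp (-(l * Z S A)) =
        ∑ S, ∑ A : Finset (Sym2 V), Pw p A * Real.exp (-(l * Z S A)) := by
      rw [Finset.sum_comm]
      refine Finset.sum_congr rfl fun A _ => ?_
      rw [Finset.mul_sum]
    rw [h1]
    have h2 : ∀ S ∈ (univ : Finset (Finset V)),
        ∑ A : Finset (Sym2 V), Pw p A * Real.exp (-(l * Z S A)) ≤ Real.exp (n / 2) := by
      intro S _
      refine le_trans (avg_exp hp0 hp1 hl0.le hl1 (y S) (hy1 S)) ?_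
      refine Real.exp_le_exp.2 ?_
      have h3 : l ^ 2 * p = 1 / D := by
        rw [hl2, hp]
        field_simp
      rw [h3]
      have h4 := hy2 S
      rw [div_mul_eq_mul_div, one_mul, div_le_iff₀ hD0]
      linarith
    refine le_trans (Finset.sum_le_sum h2) ?_
    rw [Finset.sum_const, Finset.card_univ, Fintype.card_finset, nsmul_eq_mul]
    push_cast
    exact le_refl _
  have avW : ∑ A : Finset (Sym2 V), Pw p A * ∑ t, (if t ⊆ A then w t else 0) ≤
      ∑ t, w t / (K : ℝ) ^ t.card := by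
    have h1 : ∑ A : Finset (Sym2 V), Pw p A * ∑ t, (if t ⊆ A then w t else 0) =
        ∑ t : Finset (Sym2 V), w t * ∑ A : Finset (Sym2 V), Pw p A * (if t ⊆ A then 1 else 0) := by
      simp only [Finset.mul_sum]
      rw [Finset.sum_comm]
      refine Finset.sum_congr rfl fun t _ => Finset.sum_congr rfl fun A _ => ?_
      split_ifs <;> ring
    rw [h1]
    refine Finset.sum_le_sum fun t _ => ?_
    rw [avg_subset, hp, one_div, inv_pow, ← div_eq_mul_inv]
  have avN : ∑ A : Finset (Sym2 V), Pw p A *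
      ∑ u, ∑ v, (if G.Adj u v ∧ s(u, v) ∈ A then (1 : ℝ) else 0) ≤ n * D / K := by
    have h1 : ∑ A : Finset (Sym2 V), Pw p A *
        ∑ u, ∑ v, (if G.Adj u v ∧ s(u, v) ∈ A then (1 : ℝ) else 0) =
        ∑ u, ∑ v, (if G.Adj u v then (1 : ℝ) else 0) * p := by
      simp only [Finset.mul_sum]
      rw [Finset.sum_comm]
      refine Finset.sum_congr rfl fun u _ => ?_
      rw [Finset.sum_comm]
      refine Finset.sum_congr rfl fun v _ => ?_
      by_cases h3 : G.Adj u v
      · have h4 := avg_subset p ({s(u, v)} : Finset (Sym2 V))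
        rw [Finset.card_singleton, pow_one] at h4
        rw [if_pos h3, one_mul]
        refine Eq.trans (Finset.sum_congr rfl fun A _ => ?_) h4
        simp only [h3, true_and, Finset.singleton_subset_iff]
      · simp only [h3, false_and, if_false, mul_zero, zero_mul, Finset.sum_const_zero]
    rw [h1]
    simp only [← Finset.sum_mul]
    rw [hp, mul_one_div]
    exact div_le_div_of_nonneg_right hsum2 hK0.le
  obtain ⟨A, hA1, hA2, hA3⟩ := three (fun A : Finset (Sym2 V) => Pw p A)
    (fun A => ∑ S, Real.exp (-(l * Z S A))) (fun A => ∑ t, (if t ⊆ A then w t else 0))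
    (fun A => ∑ u, ∑ v, (if G.Adj u v ∧ s(u, v) ∈ A then (1 : ℝ) else 0))
    (fun A => Pw_nonneg hp0 hp1 A) (sum_Pw p)
    (fun A => Finset.sum_nonneg fun S _ => (Real.exp_pos _).le)
    (fun A => Finset.sum_nonneg fun t _ => by
      split_ifs
      · exact hw t
      · exact le_refl _)
    (fun A => Finset.sum_nonneg fun u _ => Finset.sum_nonneg fun v _ => by
      split_ifs
      · norm_num
      · exact le_refl _) _ _ _ avY avW avN
  refine ⟨A, ?_, hA2, hA3⟩
  intro x hx
  set S : Finset V := univ.filter (fun v => x v = 1) with hS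
  have hxS : ∀ v, xs S v = x v := by
    intro v
    by_cases h : x v = 1
    · have h2 : v ∈ S := by simp [hS, h]
      have h3 : xs S v = 1 := if_pos h2
      rw [h3, h]
    · have h2 : v ∉ S := by simp [hS, h]
      have h3 : xs S v = -1 := if_neg h2
      rw [h3, (hx v).resolve_left h]
  have h1 : Real.exp (-(l * Z S A)) ≤ 3 * (2 ^ Fintype.card V * Real.exp (n / 2)) := by
    refine le_trans ?_ hA1
    exact Finset.single_le_sum (f := fun S => Real.exp (-(l * Z S A)))
      (fun S _ => (Real.exp_pos _).le) (Finset.mem_univ S)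
  have h2 : (2 : ℝ) ^ Fintype.card V ≤ Real.exp n := by
    have h3 : (2 : ℝ) ≤ Real.exp 1 := by
      have := Real.add_one_le_exp (1 : ℝ)
      linarith
    calc (2 : ℝ) ^ Fintype.card V ≤ (Real.exp 1) ^ Fintype.card V :=
          pow_le_pow_left₀ (by norm_num) h3 _
      _ = Real.exp n := by rw [← Real.exp_nat_mul, mul_one]
  have h4 : (3 : ℝ) ≤ Real.exp (3 / 2 * n) := by
    have h5 : Real.exp (3 / 2) ≤ Real.exp (3 / 2 * n) := Real.exp_le_exp.2 (by linarith)
    have h6 : (3 : ℝ) ≤ Real.exp (3 / 2) := by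
      have h7 := Real.add_one_le_exp (1 / 2 : ℝ)
      have h8 := Real.exp_one_gt_d9
      have h9 : Real.exp (3 / 2) = Real.exp 1 * Real.exp (1 / 2) := by
        rw [← Real.exp_add]
        norm_num
      rw [h9]
      nlinarith
    linarith
  have h5 : Real.exp (-(l * Z S A)) ≤ Real.exp (3 * n) := by
    refine le_trans h1 ?_
    have h6 : Real.exp (3 * n) = Real.exp (3 / 2 * n) * (Real.exp n * Real.exp (n / 2)) := by
      rw [← Real.exp_add, ← Real.exp_add]
      congr 1
      ring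
    rw [h6]
    refine mul_le_mul h4 ?_ (by positivity) (by positivity)
    exact mul_le_mul_of_nonneg_right h2 (by positivity)
  have h6 : -(l * Z S A) ≤ 3 * n := Real.exp_le_exp.1 h5
  have h7 : -(Z S A) ≤ 3 * n * l⁻¹ := by
    rw [← div_eq_mul_inv, le_div_iff₀ hl0]
    linarith
  have h8 := hZ S A
  simp only [hxS] at h8
  rw [hlinv, div_eq_mul_one_div, ← hp, mul_comm _ p]
  linarith

end Pool.Agent.G9.H49
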